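import Mathlib

set_option autoImplicit false

namespace Pool.Agent.H.MP_19858b_an

open Set Filter Topology

section chain
variable {E : Type} [AddCommGroup E] [Module ℝ E]

structure Good (C : ℕ → Set E) : Prop where
  cvx : ∀ N, Convex ℝ (C N)
  ne : ∀ N, (C N).Nonempty
  anti : Antitone C

lemma stab1 {C : ℕ → Set E} (h : Good C) (G : E → ℝ) (hG : ConvexOn ℝ univ G) (B : ℝ)
    (hB : ∀ w ∈ C 0, |G w| ≤ B) {ε : ℝ} (hε : 0 < ε) :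
    ∃ C' : ℕ → Set E, Good C' ∧ (∀ N, C' N ⊆ C N) ∧
      ∀ w ∈ C' 0, ∀ w' ∈ C' 0, G w ≤ G w' + ε := by
  have hsub : ∀ N, C N ⊆ C 0 := fun N => h.anti (Nat.zero_le N)
  have hbb : ∀ N, BddBelow (G '' C N) := fun N =>
    ⟨-B, by rintro _ ⟨w, hw, rfl⟩; exact (abs_le.1 (hB w (hsub N hw))).1⟩
  set m : ℕ → ℝ := fun N => sInf (G '' C N) with hm
  have hmB : ∀ N, m N ≤ B := fun N => by
    obtain ⟨w, hw⟩ := h.ne N
    exact (csInf_le (hbb N) ⟨w, hw, rfl⟩).trans (abs_le.1 (hB w (hsub N hw))).2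
  have hba : BddAbove (range m) := ⟨B, by rintro _ ⟨N, rfl⟩; exact hmB N⟩
  set c := sSup (range m) with hc
  obtain ⟨_, ⟨N0, rfl⟩, hN0⟩ := exists_lt_of_lt_csSup (range_nonempty m)
    (show c - ε / 2 < c by linarith)
  refine ⟨fun N => C (max N N0) ∩ {w | G w < c + ε / 2}, ⟨fun N => ?_, fun N => ?_, ?_⟩, ?_, ?_⟩
  · refine (h.cvx _).inter ?_
    have := hG.convex_lt (c + ε / 2)
    simpa using this
  · have h1 : m (max N N0) < c + ε / 2 :=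
      lt_of_le_of_lt (le_csSup hba ⟨_, rfl⟩) (by linarith)
    obtain ⟨_, ⟨w, hw, rfl⟩, h2⟩ := exists_lt_of_csInf_lt ((h.ne (max N N0)).image G) h1
    exact ⟨w, hw, h2⟩
  · intro N M hNM w hw
    exact ⟨h.anti (max_le_max_right _ hNM) hw.1, hw.2⟩
  · intro N w hw
    exact h.anti (le_max_left _ _) hw.1
  · intro w hw w' hw'
    have h1 : G w < c + ε / 2 := hw.2
    have h2 : m N0 ≤ G w' := csInf_le (hbb N0) ⟨w', h.anti (le_max_right _ _) hw'.1, rfl⟩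
    linarith

lemma stabF {ι : Type} (s : Finset ι) (G : ι → E → ℝ) (hG : ∀ i, ConvexOn ℝ univ (G i))
    {C : ℕ → Set E} (h : Good C) (hB : ∀ i, ∃ B, ∀ w ∈ C 0, |G i w| ≤ B) {ε : ℝ} (hε : 0 < ε) :
    ∃ C' : ℕ → Set E, Good C' ∧ (∀ N, C' N ⊆ C N) ∧
      ∀ i ∈ s, ∀ w ∈ C' 0, ∀ w' ∈ C' 0, G i w ≤ G i w' + ε := by
  classical
  induction s using Finset.induction_on with
  | empty => exact ⟨C, h, fun _ => subset_rfl, by simp⟩
  | insert i s hi ih =>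
    obtain ⟨C1, h1, h2, h3⟩ := ih
    obtain ⟨B, hB'⟩ := hB i
    obtain ⟨C2, h4, h5, h6⟩ := stab1 h1 (G i) (hG i) B (fun w hw => hB' w (h2 0 hw)) hε
    refine ⟨C2, h4, fun N => (h5 N).trans (h2 N), fun j hj w hw w' hw' => ?_⟩
    rcases Finset.mem_insert.1 hj with rfl | hj
    · exact h6 w hw w' hw'
    · exact h3 j hj w (h5 0 hw) w' (h5 0 hw')

lemma stabK {ι : Type} [PseudoMetricSpace ι] {A : Set ι} (hA : IsCompact A) (G : ι → E → ℝ)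
    (hG : ∀ i, ConvexOn ℝ univ (G i))
    {C : ℕ → Set E} (h : Good C) (hB : ∀ i, ∃ B, ∀ w ∈ C 0, |G i w| ≤ B) {L : ℝ} (hL0 : 0 < L)
    (hL : ∀ i j, ∀ w ∈ C 0, G i w ≤ G j w + L * dist i j) {ε : ℝ} (hε : 0 < ε) :
    ∃ C' : ℕ → Set E, Good C' ∧ (∀ N, C' N ⊆ C N) ∧
      ∀ i ∈ A, ∀ w ∈ C' 0, ∀ w' ∈ C' 0, G i w ≤ G i w' + ε := by
  obtain ⟨t, ht, hc⟩ := Metric.totallyBounded_iff.1 hA.totallyBounded (ε / (3 * L))
    (by positivity)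
  obtain ⟨C', h1, h2, h3⟩ := stabF ht.toFinset G hG h hB (show 0 < ε / 3 by positivity)
  refine ⟨C', h1, h2, fun i hi w hw w' hw' => ?_⟩
  obtain ⟨j, hj, hij⟩ := mem_iUnion₂.1 (hc hi)
  rw [Metric.mem_ball] at hij
  have e : L * dist i j ≤ ε / 3 := by
    have := mul_le_mul_of_nonneg_left hij.le hL0.le
    calc _ ≤ L * (ε / (3 * L)) := this
      _ = ε / 3 := by field_simp
  have a1 := hL i j w (h2 0 hw)
  have a2 := hL j i w' (h2 0 hw')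
  rw [dist_comm] at a2
  have a3 := h3 j (ht.mem_toFinset.2 hj) w hw w' hw'
  linarith

end chain

section dual
variable {X : Type} [NormedAddCommGroup X] [NormedSpace ℝ X]

noncomputable def P (p : Seminorm ℝ X) (f : X →L[ℝ] ℝ) : ℝ := ⨆ y : {y : X // p y ≤ 1}, f y

instance (p : Seminorm ℝ X) : Nonempty {y : X // p y ≤ 1} := ⟨⟨0, by simp⟩⟩

variable {p : Seminorm ℝ X}

lemma P_bdd (hp : ∀ y, ‖y‖ ≤ 2 * p y) (f : X →L[ℝ] ℝ) (y : X) (hy : p y ≤ 1) :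
    f y ≤ 2 * ‖f‖ := by
  have h1 := (le_abs_self _).trans (f.le_opNorm y)
  have h2 := hp y
  nlinarith [norm_nonneg f]

lemma le_P (hp : ∀ y, ‖y‖ ≤ 2 * p y) (f : X →L[ℝ] ℝ) {y : X} (hy : p y ≤ 1) : f y ≤ P p f :=
  le_ciSup (f := fun y : {y : X // p y ≤ 1} => f y)
    ⟨2 * ‖f‖, by rintro _ ⟨y, rfl⟩; exact P_bdd hp f y y.2⟩ ⟨y, hy⟩

lemma P_le {f : X →L[ℝ] ℝ} {c : ℝ} (h : ∀ y, p y ≤ 1 → f y ≤ c) : P p f ≤ c :=
  ciSup_le fun y => h y y.2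

lemma P_nonneg (hp : ∀ y, ‖y‖ ≤ 2 * p y) (f : X →L[ℝ] ℝ) : 0 ≤ P p f := by
  simpa using le_P hp f (y := 0) (by simp)

lemma P_le_norm (hp : ∀ y, ‖y‖ ≤ 2 * p y) (f : X →L[ℝ] ℝ) : P p f ≤ 2 * ‖f‖ :=
  P_le (P_bdd hp f)

lemma P_lip (hp : ∀ y, ‖y‖ ≤ 2 * p y) (f g : X →L[ℝ] ℝ) : P p f ≤ P p g + 2 * ‖f - g‖ :=
  P_le fun y hy => by
    have h1 := le_P hp g hy
    have h2 := P_bdd hp (f - g) y hy
    rw [ContinuousLinearMap.sub_apply] at h2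
    linarith

lemma P_cont (hp : ∀ y, ‖y‖ ≤ 2 * p y) : Continuous (P p) := by
  refine (LipschitzWith.of_dist_le_mul (K := 2) fun f g => ?_).continuous
  rw [Real.dist_eq, dist_eq_norm, abs_le]
  have h1 := P_lip hp f g
  have h2 := P_lip hp g f
  rw [norm_sub_rev] at h2
  push_cast
  constructor <;> linarith

lemma P_convex (hp : ∀ y, ‖y‖ ≤ 2 * p y) : ConvexOn ℝ univ (P p) := by
  refine ⟨convex_univ, fun f _ g _ a b ha hb _ => P_le fun y hy => ?_⟩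
  have h1 := mul_le_mul_of_nonneg_left (le_P hp f hy) ha
  have h2 := mul_le_mul_of_nonneg_left (le_P hp g hy) hb
  simp only [ContinuousLinearMap.add_apply, ContinuousLinearMap.smul_apply, smul_eq_mul]
  linarith

lemma le_P_mul (hp : ∀ y, ‖y‖ ≤ 2 * p y) (f : X →L[ℝ] ℝ) {y : X} {t : ℝ} (ht : 0 < t)
    (hy : p y ≤ t) : f y ≤ t * P p f := by
  have h := le_P hp f (y := t⁻¹ • y) (by
    rw [map_smul_eq_mul, Real.norm_eq_abs, abs_of_pos (inv_pos.2 ht), inv_mul_le_iff₀ ht]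
    linarith)
  rw [map_smul, smul_eq_mul, inv_mul_le_iff₀ ht] at h
  exact h

lemma P_approx (f : X →L[ℝ] ℝ) {δ : ℝ} (hδ : 0 < δ) : ∃ y, p y ≤ 1 ∧ P p f - δ < f y := by
  by_contra h
  push Not at h
  have := P_le (p := p) (f := f) h
  linarith

end dual

end Pool.Agent.H.MP_19858b_an
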