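import Pool.Agent.H.MP_19858b_an.A

set_option autoImplicit false

namespace Pool.Agent.H.MP_19858b_an

open Set Filter Topology

abbrev X0 : Type := ZeroAtInftyContinuousMap ℕ ℝ

def X : Type := X0

noncomputable instance : NormedAddCommGroup X := inferInstanceAs (NormedAddCommGroup X0)
noncomputable instance : NormedSpace ℝ X := inferInstanceAs (NormedSpace ℝ X0)
instance : CompleteSpace X := inferInstanceAs (CompleteSpace X0)

def co (x : X) (k : ℕ) : ℝ := (show X0 from x) k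

instance : CoeFun X fun _ => ℕ → ℝ := ⟨co⟩

lemma add_ap (x y : X) (k : ℕ) : (x + y) k = x k + y k := rfl
lemma sub_ap (x y : X) (k : ℕ) : (x - y) k = x k - y k := rfl
lemma neg_ap (x : X) (k : ℕ) : (-x) k = - x k := rfl
lemma smul_ap (c : ℝ) (x : X) (k : ℕ) : (c • x) k = c * x k := rfl

lemma X.ext {x y : X} (h : ∀ k, x k = y k) : x = y := ZeroAtInftyContinuousMap.ext h

lemma ev_le (x : X) (k : ℕ) : |x k| ≤ ‖x‖ :=
  (show X0 from x).toBCF.norm_coe_le_norm k

lemma norm_le {x : X} {r : ℝ} (hr : 0 ≤ r) (h : ∀ k, |x k| ≤ r) : ‖x‖ ≤ r :=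
  (BoundedContinuousFunction.norm_le (f := (show X0 from x).toBCF) hr).2 h

lemma tend (x : X) : Tendsto x atTop (𝓝 0) := by
  have h := (show X0 from x).zero_at_infty'
  rwa [cocompact_eq_cofinite, Nat.cofinite_eq_atTop] at h

lemma tail (x : X) {ε : ℝ} (hε : 0 < ε) : ∃ N, ∀ k, N ≤ k → |x k| ≤ ε := by
  obtain ⟨N, hN⟩ := Metric.tendsto_atTop.1 (tend x) ε hε
  exact ⟨N, fun k hk => by simpa [Real.dist_eq] using (hN k hk).le⟩

def mk (g : ℕ → ℝ) (h : Tendsto g atTop (𝓝 0)) : X :=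
  show X0 from ⟨⟨g, continuous_of_discreteTopology⟩, by
    rwa [cocompact_eq_cofinite, Nat.cofinite_eq_atTop]⟩

lemma mk_apply (g : ℕ → ℝ) (h : Tendsto g atTop (𝓝 0)) (k : ℕ) : mk g h k = g k := rfl

def trunc (M : ℕ) (g : ℕ → ℝ) : X :=
  mk (fun k => if k < M then g k else 0) (tendsto_const_nhds.congr' (by
    filter_upwards [eventually_ge_atTop M] with k hk
    rw [if_neg (not_lt.2 hk)]))

lemma trunc_apply (M : ℕ) (g : ℕ → ℝ) (k : ℕ) : trunc M g k = if k < M then g k else 0 := rfl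

def e (j : ℕ) : X := trunc (j + 1) fun k => if k = j then 1 else 0

lemma e_apply (j k : ℕ) : e j k = if k = j then 1 else 0 := by
  rw [e, trunc_apply]
  split_ifs with h1 h2 h3 <;> first | rfl | omega

noncomputable def ev (j : ℕ) : X →L[ℝ] ℝ :=
  LinearMap.mkContinuous ⟨⟨fun x => x j, fun _ _ => rfl⟩, fun _ _ => rfl⟩ 1 fun x => by
    simpa using ev_le x j

lemma ev_apply (j : ℕ) (x : X) : ev j x = x j := rfl

lemma ev_norm (j : ℕ) : ‖ev j‖ ≤ 1 := LinearMap.mkContinuous_norm_le _ zero_le_one _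

lemma pair_tend (i : ℕ) : Tendsto (fun j => Nat.pair j i) atTop atTop :=
  tendsto_atTop_mono (fun j => Nat.left_le_pair j i) tendsto_id

noncomputable def S (i : ℕ) : X →L[ℝ] X :=
  LinearMap.mkContinuous
    ⟨⟨fun x => mk (fun j => x (Nat.pair j i) / 2) (by
        simpa using ((tend x).comp (pair_tend i)).div_const 2),
      fun x y => X.ext fun j => by simp only [mk_apply, add_ap]; ring⟩,
      fun c x => X.ext fun j => by simp only [mk_apply, smul_ap, RingHom.id_apply]; ring⟩ (1 / 2) fun x =>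
    norm_le (by positivity) fun j => by
      show |x (Nat.pair j i) / 2| ≤ _
      rw [abs_div, abs_two]
      have := ev_le x (Nat.pair j i)
      linarith

lemma S_apply (i : ℕ) (x : X) (j : ℕ) : S i x j = x (Nat.pair j i) / 2 := rfl

lemma S_norm (i : ℕ) : ‖S i‖ ≤ 1 / 2 := LinearMap.mkContinuous_norm_le _ (by norm_num) _

def Van (N : ℕ) (v : X) : Prop := ∀ k, k < N → v k = 0

lemma Van.mono {N M : ℕ} {v : X} (h : Van N v) (hM : M ≤ N) : Van M v :=
  fun k hk => h k (lt_of_lt_of_le hk hM)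

lemma Van.neg {N : ℕ} {v : X} (h : Van N v) : Van N (-v) := fun k hk => by rw [neg_ap, h k hk, neg_zero]

lemma ftail (f : X →L[ℝ] ℝ) {δ : ℝ} (hδ : 0 < δ) :
    ∃ N, ∀ v, Van N v → ‖v‖ ≤ 1 → -δ ≤ f v := by
  obtain ⟨u, hu, hfu⟩ : ∃ u : X, ‖u‖ ≤ 1 ∧ ‖f‖ - δ / 2 < f u := by
    by_contra h
    push Not at h
    have h0 := h 0 (by simp)
    have : ‖f‖ ≤ ‖f‖ - δ / 2 := by
      refine f.opNorm_le_of_unit_norm (by simpa using h0) fun x hx => ?_
      rw [Real.norm_eq_abs, abs_le]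
      have h1 := h (-x) (by simp [hx])
      rw [map_neg] at h1
      exact ⟨by linarith, h x hx.le⟩
    linarith
  have hκ : 0 < δ / (2 * (‖f‖ + 1)) := by positivity
  obtain ⟨N, hN⟩ := tail u hκ
  refine ⟨N, fun v hv hv1 => ?_⟩
  have h1 : ‖u - v‖ ≤ 1 + δ / (2 * (‖f‖ + 1)) := norm_le (by positivity) fun k => by
    show |u k - v k| ≤ _
    by_cases hk : k < N
    · rw [hv k hk, sub_zero]
      linarith [ev_le u k]
    · have := abs_sub (u k) (v k)
      linarith [hN k (not_lt.1 hk), ev_le v k]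
  have h2 := (le_abs_self _).trans (f.le_opNorm (u - v))
  rw [map_sub] at h2
  have h3 : ‖f‖ * (δ / (2 * (‖f‖ + 1))) ≤ δ / 2 := by
    rw [← mul_div_assoc, div_le_div_iff₀ (by positivity) (by positivity)]
    nlinarith [norm_nonneg f]
  have h4 := mul_le_mul_of_nonneg_left h1 (norm_nonneg f)
  linarith

abbrev E : Type := X →L[ℝ] X

def D (N : ℕ) : Set E := convexHull ℝ {W | ∃ i, N ≤ i ∧ W = S i}

lemma D_good : Good D :=
  ⟨fun _ => convex_convexHull _ _, fun N => ⟨S N, subset_convexHull _ _ ⟨N, le_rfl, rfl⟩⟩,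
    fun _ _ h => convexHull_mono fun _ ⟨i, hi, e⟩ => ⟨i, h.trans hi, e⟩⟩

lemma D_norm {N : ℕ} {W : E} (h : W ∈ D N) : ‖W‖ ≤ 1 / 2 := by
  have : D N ⊆ Metric.closedBall 0 (1 / 2) :=
    convexHull_min (by rintro _ ⟨i, -, rfl⟩; exact mem_closedBall_zero_iff.2 (S_norm i)) (convex_closedBall _ _)
  exact mem_closedBall_zero_iff.1 (this h)

lemma D_small (y : X) {δ : ℝ} (hδ : 0 < δ) : ∃ N, ∀ W ∈ D N, ‖W y‖ ≤ δ := by
  obtain ⟨N, hN⟩ := tail y hδ
  refine ⟨N, fun W hW => ?_⟩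
  have : D N ⊆ {W : E | ‖W y‖ ≤ δ} := by
    refine convexHull_min ?_ ?_
    · rintro _ ⟨i, hi, rfl⟩
      refine norm_le hδ.le fun j => ?_
      rw [S_apply, abs_div, abs_two]
      have := hN _ (hi.trans (Nat.right_le_pair j i))
      linarith
    · intro W hW W' hW' a b ha hb hab
      simp only [mem_ofPred_eq, _root_.add_apply, _root_.smul_apply] at hW hW' ⊢
      refine (norm_add_le _ _).trans ?_
      rw [norm_smul, norm_smul, Real.norm_eq_abs, Real.norm_eq_abs, abs_of_nonneg ha,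
        abs_of_nonneg hb]
      nlinarith [mul_le_mul_of_nonneg_left hW ha, mul_le_mul_of_nonneg_left hW' hb]
  exact this hW

lemma D_big {N : ℕ} {W : E} (h : W ∈ D N) (j : ℕ) :
    ∃ v, Van N v ∧ ‖v‖ ≤ 1 ∧ W v = (1 / 2 : ℝ) • e j := by
  set v : ℕ → X := fun M => trunc M fun k => if k.unpair.1 = j ∧ N ≤ k then 1 else 0 with hv
  have : D N ⊆ {W : E | ∀ᶠ M in atTop, W (v M) = (1 / 2 : ℝ) • e j} := by
    refine convexHull_min ?_ ?_
    · rintro _ ⟨i, hi, rfl⟩
      filter_upwards [eventually_gt_atTop (Nat.pair j i)] with M hM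
      refine X.ext fun k => ?_
      rw [S_apply, smul_ap, e_apply, hv]
      simp only [trunc_apply, Nat.unpair_pair]
      by_cases hk : k = j
      · subst hk
        rw [if_pos hM, if_pos ⟨rfl, hi.trans (Nat.right_le_pair k i)⟩, if_pos rfl]
        norm_num
      · simp [hk]
    · intro W hW W' hW' a b ha hb hab
      filter_upwards [hW, hW'] with M h1 h2
      rw [_root_.add_apply, _root_.smul_apply, _root_.smul_apply, h1, h2, ← add_smul, hab,
        one_smul]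
  obtain ⟨M, hM⟩ := (this h).exists
  refine ⟨v M, fun k hk => ?_, norm_le zero_le_one fun k => ?_, hM⟩
  · rw [hv]
    simp only [trunc_apply]
    rw [if_neg (fun h : k.unpair.1 = j ∧ N ≤ k => by omega)]
    simp
  · rw [hv]
    simp only [trunc_apply]
    split_ifs <;> simp

def AUS (p : Seminorm ℝ X) : Prop :=
  ∀ σ : ℝ, 0 < σ → ∃ η : ℝ, 0 < η ∧ η ≤ 1 ∧ ∀ y, p y ≤ 1 →
    ∃ N, ∀ v, Van N v → ‖v‖ ≤ 1 → p (y + η • v) ≤ 1 + σ * η

variable {p : Seminorm ℝ X}

lemma kk (hp : ∀ y, ‖y‖ ≤ 2 * p y) (hA : AUS p) {R τ : ℝ} (hR : 0 < R) (hτ : 0 < τ)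
    (hτ1 : τ ≤ 1) : ∃ c : ℝ, 0 < c ∧ ∀ (a : X →L[ℝ] ℝ) (U : E), ‖a ∘L U‖ ≤ R →
      ∀ j, |a (e j)| = 1 → ∃ N, ∀ W ∈ D N, P p (a ∘L U) + c ≤ P p (a ∘L (U + τ • W)) := by
  obtain ⟨η, hη, hη1, H⟩ := hA (τ / (8 * (2 * R + 1))) (by positivity)
  have hc : 0 < τ * η := by positivity
  have hc1 : τ * η ≤ 1 := by nlinarith
  refine ⟨τ * η / 8, by positivity, fun a U hf j hj => ?_⟩
  set f := a ∘L U with hfd
  have hδ : 0 < τ * η / 16 := by positivity
  obtain ⟨y, hy, hfy⟩ := P_approx (p := p) f hδ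
  obtain ⟨N1, h1⟩ := H y hy
  obtain ⟨N2, h2⟩ := ftail f hδ
  obtain ⟨N3, h3⟩ := D_small y (show 0 < τ * η / 16 / (‖a‖ + 1) by positivity)
  refine ⟨max N1 (max N2 N3), fun W hW => ?_⟩
  obtain ⟨v, hv, hv1, hav⟩ : ∃ v, Van (max N1 (max N2 N3)) v ∧ ‖v‖ ≤ 1 ∧ a (W v) = 1 / 2 := by
    obtain ⟨v, hv, hv1, hWv⟩ := D_big hW j
    rcases (abs_eq zero_le_one).1 hj with h | h
    · exact ⟨v, hv, hv1, by rw [hWv, map_smul, h]; norm_num⟩
    · exact ⟨-v, hv.neg, by simpa using hv1, by rw [map_neg, map_neg, hWv, map_smul, h]; norm_num⟩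
  have a1 := h1 v (hv.mono (le_max_left _ _)) hv1
  have a2 := h2 v (hv.mono ((le_max_left _ _).trans (le_max_right _ _))) hv1
  have a3 := h3 W (D_good.anti ((le_max_right _ _).trans (le_max_right _ _)) hW)
  have a4 : -(τ * η / 16) ≤ a (W y) := by
    have b1 := (neg_le_abs _).trans (a.le_opNorm (W y))
    have b2 : ‖a‖ * ‖W y‖ ≤ (‖a‖ + 1) * (τ * η / 16 / (‖a‖ + 1)) :=
      mul_le_mul (by linarith) a3 (norm_nonneg _) (by positivity)
    rw [mul_div_cancel₀ _ (by positivity)] at b2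
    linarith
  set Q := P p (a ∘L (U + τ • W)) with hQ
  have a5 := le_P_mul hp (a ∘L (U + τ • W)) (by positivity) a1
  have a6 : (a ∘L (U + τ • W)) (y + η • v) = f y + η * f v + τ * a (W y) + τ * η * a (W v) := by
    simp only [hfd, ContinuousLinearMap.comp_apply, _root_.add_apply, _root_.smul_apply, map_add,
      map_smul, smul_eq_mul]
    ring
  rw [a6, hav, ← hQ] at a5
  by_contra hlt
  push Not at hlt
  have a7 : P p f ≤ 2 * R := (P_le_norm hp f).trans (by linarith)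
  have a8 : τ / (8 * (2 * R + 1)) * η * Q ≤ τ * η / 8 := by
    have : Q ≤ 2 * R + 1 := by linarith
    calc _ ≤ τ / (8 * (2 * R + 1)) * η * (2 * R + 1) :=
          mul_le_mul_of_nonneg_left this (by positivity)
      _ = τ * η / 8 := by field_simp
  have a9 : -(τ * η / 16) ≤ η * f v := by nlinarith
  have a10 : -(τ * η / 16) ≤ τ * a (W y) := by nlinarith
  nlinarith

end Pool.Agent.H.MP_19858b_an
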