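import Pool.Agent.H.MP_19858b_an.B

set_option autoImplicit false

namespace Pool.Agent.H.MP_19858b_an

open Set Filter Topology

noncomputable def L (n : ℕ) (α : ℕ → ℝ) : X →L[ℝ] ℝ := ∑ j ∈ Finset.range n, α j • ev j

def A (n : ℕ) : Set (X →L[ℝ] ℝ) := L n '' (Set.pi univ fun _ => Icc (-1) 1)

lemma A_compact (n : ℕ) : IsCompact (A n) :=
  (isCompact_univ_pi fun _ => isCompact_Icc).image
    (continuous_finsetSum _ fun j _ => (continuous_apply j).smul continuous_const)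

lemma A_mono {m n : ℕ} (h : m ≤ n) : A m ⊆ A n := by
  rintro _ ⟨α, hα, rfl⟩
  refine ⟨fun j => if j < m then α j else 0, fun j _ => ?_, ?_⟩
  · by_cases hj : j < m
    · simpa [hj] using hα j (mem_univ _)
    · simp [hj]
  · unfold L
    symm
    rw [← Finset.sum_subset (Finset.range_subset_range.2 h) (fun j _ hj => by
      beta_reduce
      rw [if_neg (by simpa using hj), zero_smul])]
    exact Finset.sum_congr rfl fun j hj => by
      beta_reduce
      rw [if_pos (Finset.mem_range.1 hj)]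

lemma A_norm {n : ℕ} {a : X →L[ℝ] ℝ} (h : a ∈ A n) : ‖a‖ ≤ n := by
  obtain ⟨α, hα, rfl⟩ := h
  refine (norm_sum_le _ _).trans ?_
  calc _ ≤ ∑ _j ∈ Finset.range n, (1 : ℝ) := Finset.sum_le_sum fun j _ => by
        rw [norm_smul]
        exact mul_le_one₀ (abs_le.2 (hα j (mem_univ _))) (norm_nonneg _) (ev_norm j)
    _ = n := by simp

def Inv (C : ℕ → Set E) : Prop := Good C ∧ ∀ N, C N ⊆ D N

variable {p : Seminorm ℝ X}

lemma step (hp : ∀ y, ‖y‖ ≤ 2 * p y) (n : ℕ) {τ ε : ℝ} (hτ : 0 ≤ τ) (hε : 0 < ε) (U : E)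
    {C : ℕ → Set E} (h : Inv C) : ∃ (C' : ℕ → Set E) (W : E), Inv C' ∧ C' 0 ⊆ C 0 ∧
      C' 0 ⊆ D n ∧ W ∈ C' 0 ∧ ∀ a ∈ A n, ∀ w ∈ C' 0, ∀ w' ∈ C' 0,
        P p (a ∘L (U + τ • w)) ≤ P p (a ∘L (U + τ • w')) + ε := by
  have hg : Good fun N => C (N + n) :=
    ⟨fun N => h.1.cvx _, fun N => h.1.ne _, fun _ _ hN => h.1.anti (Nat.add_le_add_right hN n)⟩
  have hn : ∀ w ∈ C (0 + n), ‖U + τ • w‖ ≤ ‖U‖ + τ := fun w hw => by
    refine (norm_add_le _ _).trans ?_
    rw [norm_smul, Real.norm_eq_abs, abs_of_nonneg hτ]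
    have := D_norm (h.2 _ hw)
    nlinarith
  obtain ⟨C', h1, h2, h3⟩ := stabK (A_compact n) (fun a w => P p (a ∘L (U + τ • w)))
    (fun a => ⟨convex_univ, fun w _ w' _ s t hs ht hst => by
      have e : a ∘L (U + τ • (s • w + t • w')) =
          s • (a ∘L (U + τ • w)) + t • (a ∘L (U + τ • w')) := by
        ext x
        simp only [ContinuousLinearMap.comp_apply, _root_.add_apply, _root_.smul_apply, map_add,
          map_smul, smul_eq_mul]
        have : a (U x) = (s + t) * a (U x) := by rw [hst, one_mul]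
        linarith
      show P p _ ≤ _
      rw [e]
      exact (P_convex hp).2 (mem_univ _) (mem_univ _) hs ht hst⟩) hg
    (fun a => ⟨2 * (‖a‖ * (‖U‖ + τ)), fun w hw => by
      rw [abs_of_nonneg (P_nonneg hp _)]
      refine (P_le_norm hp _).trans ?_
      have := (ContinuousLinearMap.opNorm_comp_le a (U + τ • w)).trans
        (mul_le_mul_of_nonneg_left (hn w hw) (norm_nonneg a))
      linarith⟩) (L := 2 * (‖U‖ + τ + 1)) (by positivity)
    (fun a b w hw => by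
      refine (P_lip hp _ (b ∘L (U + τ • w))).trans ?_
      rw [← ContinuousLinearMap.sub_comp, dist_eq_norm]
      have := (ContinuousLinearMap.opNorm_comp_le (a - b) (U + τ • w)).trans
        (mul_le_mul_of_nonneg_left (hn w hw) (norm_nonneg (a - b)))
      nlinarith [norm_nonneg (a - b)]) hε
  obtain ⟨W, hW⟩ := h1.ne 0
  exact ⟨C', W, ⟨h1, fun N => (h2 N).trans ((h.1.anti (Nat.le_add_right N n)).trans (h.2 N))⟩,
    (h2 0).trans (h.1.anti (Nat.zero_le _)), (h2 0).trans (by simpa using h.2 (0 + n)), hW, h3⟩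

lemma fin_min (c : ℕ → ℝ) (hc : ∀ m, 0 < c m) (n : ℕ) : ∃ e : ℝ, 0 < e ∧ ∀ m, m ≤ n → e ≤ c m := by
  obtain ⟨m, -, hm⟩ := Finset.exists_min_image (Finset.range (n + 1)) c ⟨0, by simp⟩
  exact ⟨c m, hc m, fun k hk => hm k (Finset.mem_range.2 (by omega))⟩

lemma build (hp : ∀ y, ‖y‖ ≤ 2 * p y) (τ ε : ℕ → ℝ) (hτ : ∀ n, 0 ≤ τ n) (hε : ∀ n, 0 < ε n) :
    ∃ (U W : ℕ → E) (C : ℕ → ℕ → Set E), U 0 = 1 ∧ (∀ n, U (n + 1) = U n + (τ n / 2) • W n) ∧
      (∀ n, Inv (C n)) ∧ (∀ n, C (n + 1) 0 ⊆ C n 0) ∧ (∀ n, C (n + 1) 0 ⊆ D n) ∧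
      (∀ n, W n ∈ C (n + 1) 0) ∧ ∀ n, ∀ a ∈ A n, ∀ w ∈ C (n + 1) 0, ∀ w' ∈ C (n + 1) 0,
        P p (a ∘L (U n + τ n • w)) ≤ P p (a ∘L (U n + τ n • w')) + ε n := by
  choose C' W' h1 h2 h3 h4 h5 using fun (n : ℕ) (s : E × {C : ℕ → Set E // Inv C}) =>
    step hp n (hτ n) (hε n) s.1 s.2.2
  let s : ℕ → E × {C : ℕ → Set E // Inv C} := fun n => Nat.rec (1, ⟨D, D_good, fun _ => subset_rfl⟩)
    (fun n t => (t.1 + (τ n / 2) • W' n t, ⟨C' n t, h1 n t⟩)) n
  exact ⟨fun n => (s n).1, fun n => W' n (s n), fun n => (s n).2.1, rfl, fun n => rfl,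
    fun n => (s n).2.2, fun n => h2 n (s n), fun n => h3 n (s n), fun n => h4 n (s n),
    fun n => h5 n (s n)⟩

theorem exists_U (hp : ∀ y, ‖y‖ ≤ 2 * p y) (hA : AUS p) :
    ∃ T : E, ‖T - 1‖ ≤ 1 / 2 ∧ ∀ m, ∀ a ∈ A m, ∀ j, |a (e j)| = 1 → ∀ y, p y ≤ 1 →
      a (T y) < P p (a ∘L T) := by
  set τ : ℕ → ℝ := fun n => (1 / 2) ^ n with hτd
  have hτ : ∀ n, 0 < τ n := fun n => by positivity
  have hτ1 : ∀ n, τ n ≤ 1 := fun n => pow_le_one₀ (by norm_num) (by norm_num)
  have hτs : ∀ n, τ (n + 1) = τ n / 2 := fun n => by simp only [hτd, pow_succ]; ring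
  have hτ0 : τ 0 = 1 := by simp [hτd]
  have hτt : Tendsto τ atTop (𝓝 0) :=
    tendsto_pow_atTop_nhds_zero_of_lt_one (by norm_num) (by norm_num)
  clear_value τ
  choose c hc hkk using fun m : ℕ =>
    kk hp hA (show (0 : ℝ) < 2 * m + 1 by positivity) (hτ m) (hτ1 m)
  choose e' he' he'' using fin_min c hc
  obtain ⟨U, W, C, hU0, hU, hI, hC, hD, hW, hosc⟩ := build hp τ (fun n => τ n ^ 2 * e' n / 8)
    (fun n => (hτ n).le) (fun n => by have := hτ n; have := he' n; positivity)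
  set M : ℕ → Set E := fun n => {V | ∃ w ∈ C (n + 1) 0, V = U n + τ n • w} with hM
  have hMa : Antitone M := antitone_nat_of_succ_le fun n => by
    rintro _ ⟨w, hw, rfl⟩
    refine ⟨(1 / 2 : ℝ) • W n + (1 / 2 : ℝ) • w,
      (hI (n + 1)).1.cvx 0 (hW n) (hC _ hw) (by norm_num) (by norm_num) (by norm_num), ?_⟩
    rw [hU, hτs, smul_add, smul_smul, smul_smul, add_assoc, mul_one_div]
  have hV : ∀ n, U n + τ n • W n ∈ M n := fun n => ⟨W n, hW n, rfl⟩
  have hMU : ∀ n, ∀ V ∈ M n, ‖V - U n‖ ≤ τ n / 2 := by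
    rintro n _ ⟨w, hw, rfl⟩
    rw [add_sub_cancel_left, norm_smul, Real.norm_eq_abs, abs_of_pos (hτ n)]
    have := D_norm (hD n hw)
    nlinarith [hτ n]
  have hcs : CauchySeq fun n => U n + τ n • W n := by
    refine cauchySeq_of_le_tendsto_0 τ (fun k l N hk hl => ?_) hτt
    have a1 := hMU N _ (hMa hk (hV k))
    have a2 := hMU N _ (hMa hl (hV l))
    have := dist_triangle_right (U k + τ k • W k) (U l + τ l • W l) (U N)
    rw [dist_eq_norm _ (U N), dist_eq_norm _ (U N)] at this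
    linarith
  obtain ⟨T, hT⟩ := cauchySeq_tendsto_of_complete hcs
  have hTM : ∀ n, ∀ K : Set E, IsClosed K → M n ⊆ K → T ∈ K := fun n K hK hMK =>
    hK.mem_of_tendsto hT (by
      filter_upwards [eventually_ge_atTop n] with k hk using hMK (hMa hk (hV k)))
  have hUn : ∀ n, ‖U n‖ ≤ 2 := fun n => by
    have a1 := hMU n _ (hV n)
    have a2 := hMU 0 _ (hMa (Nat.zero_le n) (hV n))
    rw [hU0, hτ0] at a2
    have a3 : ‖(1 : E)‖ ≤ 1 := ContinuousLinearMap.norm_id_le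
    have a4 : U n = (U n + τ n • W n - 1) + 1 - (U n + τ n • W n - U n) := by abel
    have a5 := norm_sub_le ((U n + τ n • W n - 1) + 1) (U n + τ n • W n - U n)
    have a6 := norm_add_le (U n + τ n • W n - 1) 1
    rw [← a4] at a5
    linarith [hτ1 n]
  have hi : ∀ n, ∀ a ∈ A n, ∀ w ∈ C (n + 1) 0,
      P p (a ∘L (U n + τ n • w)) ≤ P p (a ∘L T) + τ n ^ 2 * e' n / 8 := fun n a ha w hw =>
    hTM n {V | P p (a ∘L (U n + τ n • w)) ≤ P p (a ∘L V) + τ n ^ 2 * e' n / 8}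
      (isClosed_le continuous_const (((P_cont hp).comp
        (continuous_const.clm_comp continuous_id)).add continuous_const))
      (by rintro _ ⟨w', hw', rfl⟩; exact hosc n a ha w hw w' hw')
  refine ⟨T, ?_, fun m a ha j hj y hy => ?_⟩
  · refine hTM 0 {V | ‖V - 1‖ ≤ 1 / 2} (isClosed_le (by fun_prop) continuous_const) fun V hV => ?_
    have := hMU 0 V hV
    rwa [hU0, hτ0] at this
  have key : ∀ n, m ≤ n → τ n * (c m / 2 + c m * τ n / 4) ≤ P p (a ∘L T) - P p (a ∘L U n) := by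
    intro n hn
    induction n, hn using Nat.le_induction with
    | base =>
      obtain ⟨N, hN⟩ := hkk m a (U m) ((ContinuousLinearMap.opNorm_comp_le _ _).trans (by
        have := A_norm ha
        nlinarith [hUn m, norm_nonneg a, norm_nonneg (U m)])) j hj
      obtain ⟨w, hw⟩ := (hI (m + 1)).1.ne N
      have a1 := hN w ((hI (m + 1)).2 N hw)
      have a2 := hi m a ha w ((hI (m + 1)).1.anti (Nat.zero_le N) hw)
      have a3 := he'' m m le_rfl
      have a4 : τ m ^ 2 ≤ 1 := pow_le_one₀ (hτ m).le (hτ1 m)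
      have a5 : τ m ^ 2 * e' m ≤ c m := by nlinarith [he' m]
      have a6 : τ m * c m ≤ c m := by nlinarith [hc m, hτ1 m]
      have a7 : τ m ^ 2 * c m ≤ c m := by nlinarith [hc m]
      nlinarith [hc m]
    | succ n hn ih =>
      have a2 := hi n a (A_mono hn ha) _ (hW n)
      have a3 := he'' n m hn
      have e1 : a ∘L U (n + 1) = (1 / 2 : ℝ) • (a ∘L U n) +
          (1 / 2 : ℝ) • (a ∘L (U n + τ n • W n)) := by
        ext x
        simp only [hU, ContinuousLinearMap.comp_apply, _root_.add_apply, _root_.smul_apply,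
          map_add, map_smul, smul_eq_mul]
        ring
      have a4 := (P_convex hp).2 (mem_univ (a ∘L U n)) (mem_univ (a ∘L (U n + τ n • W n)))
        (show (0 : ℝ) ≤ 1 / 2 by norm_num) (show (0 : ℝ) ≤ 1 / 2 by norm_num) (by norm_num)
      rw [← e1, smul_eq_mul, smul_eq_mul] at a4
      have a5 : τ n ^ 2 * e' n ≤ τ n ^ 2 * c m := mul_le_mul_of_nonneg_left a3 (sq_nonneg _)
      rw [hτs]
      nlinarith
  obtain ⟨N, hN⟩ := D_small y (show 0 < c m / 4 / (‖a‖ + 1) by have := hc m; positivity)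
  set n := max m N
  have a1 := key n (le_max_left _ _)
  have a2 : a (T y) ≤ a (U n y) + τ n * (c m / 4) :=
    hTM n {V | a (V y) ≤ a (U n y) + τ n * (c m / 4)}
      (isClosed_le (by fun_prop) continuous_const) (by
        rintro _ ⟨w, hw, rfl⟩
        have b0 := hN w (D_good.anti (le_max_right m N) (hD n hw))
        have b1 := (le_abs_self _).trans (a.le_opNorm (w y))
        have b2 : ‖a‖ * ‖w y‖ ≤ (‖a‖ + 1) * (c m / 4 / (‖a‖ + 1)) :=
          mul_le_mul (by linarith) b0 (norm_nonneg _) (by positivity)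
        rw [mul_div_cancel₀ _ (by positivity)] at b2
        simp only [mem_ofPred_eq, _root_.add_apply, _root_.smul_apply, map_add, map_smul,
          smul_eq_mul]
        nlinarith [hτ n])
  have a3 := le_P hp (a ∘L U n) hy
  rw [ContinuousLinearMap.comp_apply] at a3
  have a4 : 0 < τ n * c m := mul_pos (hτ n) (hc m)
  have a5 : 0 ≤ τ n * (c m * τ n) := by have := hτ n; have := hc m; positivity
  nlinarith

end Pool.Agent.H.MP_19858b_an
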