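import Pool.Agent.H.MP_19858b_an.C

set_option autoImplicit false

namespace Pool.Agent.H.MP_19858b_an

open Set Filter Topology

lemma sum_ap (s : Finset ℕ) (g : ℕ → X) (k : ℕ) : (∑ j ∈ s, g j) k = ∑ j ∈ s, g j k :=
  map_sum (ev k) g s

lemma rep {m : ℕ} {f : X →L[ℝ] ℝ} (h : ∀ v, Van m v → f v = 0) (w : X) :
    f w = ∑ j ∈ Finset.range m, w j * f (e j) := by
  have := h (w - ∑ j ∈ Finset.range m, w j • e j) fun k hk => by
    rw [sub_ap, sum_ap, Finset.sum_eq_single k]
    · rw [smul_ap, e_apply, if_pos rfl, mul_one, sub_self]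
    · intro j _ hj
      rw [smul_ap, e_apply, if_neg (Ne.symm hj), mul_zero]
    · intro hk'
      exact absurd (Finset.mem_range.2 hk) hk'
  rw [map_sub, map_sum, sub_eq_zero] at this
  simpa using this

variable {p : Seminorm ℝ X}

theorem companion (hp : ∀ y, ‖y‖ ≤ 2 * p y) (hA : AUS p) : ∃ q : Seminorm ℝ X,
    (∃ a b : ℝ, 0 < a ∧ 0 < b ∧ ∀ x : X, a * ‖x‖ ≤ q x ∧ q x ≤ b * ‖x‖) ∧
    ∀ x : X, 1 < p x → ∀ y : X, p y ≤ 1 → ∃ z : X, p z ≤ 1 ∧ q (x - z) < q (x - y) := by
  obtain ⟨T, hT, H⟩ := exists_U hp hA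
  have hb : ∀ x, 1 / 2 * ‖x‖ ≤ ‖T x‖ ∧ ‖T x‖ ≤ 3 / 2 * ‖x‖ := fun x => by
    have h1 := ((T - 1).le_opNorm x).trans (mul_le_mul_of_nonneg_right hT (norm_nonneg x))
    have h2 : (T - 1) x = T x - x := rfl
    rw [h2] at h1
    have h3 := abs_le.1 (abs_norm_sub_norm_le (T x) x)
    constructor <;> linarith [h3.1, h3.2]
  refine ⟨(normSeminorm ℝ X).comp T.toLinearMap, ⟨1 / 2, 3 / 2, by norm_num, by norm_num, hb⟩,
    fun x hx y hy => ?_⟩
  by_contra hc
  push Not at hc
  replace hc : ∀ z, p z ≤ 1 → ‖T (x - y)‖ ≤ ‖T (x - z)‖ := hc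
  set v := T (x - y) with hv
  have hd : 0 < ‖v‖ := by
    have : x - y ≠ 0 := fun h => by
      rw [sub_eq_zero.1 h] at hx
      linarith
    have := norm_pos_iff.2 this
    linarith [(hb (x - y)).1]
  have hcv : Convex ℝ (T '' {z | p z ≤ 1}) := by
    refine Convex.is_linear_image ?_ T.toLinearMap.isLinear
    simpa using p.convexOn.convex_le 1
  obtain ⟨f, u, hf1, hf2⟩ := geometric_hahn_banach_open (convex_ball (T x) ‖v‖)
    Metric.isOpen_ball hcv (by
      rw [Set.disjoint_left]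
      rintro _ h1 ⟨z, hz, rfl⟩
      rw [mem_ball_iff_norm', ← map_sub] at h1
      exact absurd (hc z hz) (not_le.2 h1))
  have hf3 : ∀ w, ‖T x - w‖ ≤ ‖v‖ → f w ≤ u := fun w hw => by
    have : Metric.closedBall (T x) ‖v‖ ⊆ {w | f w ≤ u} := by
      rw [← closure_ball _ hd.ne']
      exact closure_minimal (fun w hw => (hf1 w hw).le) (isClosed_le f.continuous continuous_const)
    exact this (mem_closedBall_iff_norm'.2 hw)
  have hvy : T x - T y = v := by rw [hv, map_sub]
  have hy1 : f (T y) = u := le_antisymm (hf3 _ (by rw [hvy])) (hf2 _ ⟨y, hy, rfl⟩)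
  obtain ⟨m0, hm0⟩ := tail v (half_pos hd)
  set m := m0 + 1 with hm
  have hz1 : ∀ w, Van m w → ‖w‖ ≤ ‖v‖ / 2 → f w ≤ 0 := fun w hw hw1 => by
    have := hf3 (T y + w) (by
      rw [← sub_sub, hvy]
      refine norm_le hd.le fun k => ?_
      rw [sub_ap]
      by_cases hk : k < m
      · rw [hw k hk, sub_zero]
        exact ev_le v k
      · have := abs_sub (v k) (w k)
        linarith [hm0 k (by omega), ev_le w k])
    rw [map_add] at this
    linarith
  have hz : ∀ w, Van m w → f w = 0 := fun w hw => by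
    have hs : 0 < ‖v‖ / 2 / (‖w‖ + 1) := by positivity
    have hw' : Van m ((‖v‖ / 2 / (‖w‖ + 1)) • w) := fun k hk => by rw [smul_ap, hw k hk, mul_zero]
    have hn : ‖(‖v‖ / 2 / (‖w‖ + 1)) • w‖ ≤ ‖v‖ / 2 := by
      rw [norm_smul, Real.norm_eq_abs, abs_of_pos hs, div_mul_eq_mul_div,
        div_le_iff₀ (by positivity)]
      nlinarith
    have a1 := hz1 _ hw' hn
    have a2 := hz1 _ hw'.neg (by rwa [norm_neg])
    rw [map_neg] at a2
    have a3 : f ((‖v‖ / 2 / (‖w‖ + 1)) • w) = 0 := by linarith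
    rw [map_smul, smul_eq_mul] at a3
    exact (mul_eq_zero.1 a3).resolve_left hs.ne'
  obtain ⟨j, -, hj⟩ := Finset.exists_max_image (Finset.range m) (fun j => |f (e j)|)
    ⟨0, by simp [hm]⟩
  set M := |f (e j)| with hM
  have hM0 : 0 < M := by
    refine lt_of_le_of_ne (abs_nonneg _) fun h0 => ?_
    have : ∀ w, f w = 0 := fun w => by
      rw [rep hz w]
      refine Finset.sum_eq_zero fun i hi => ?_
      have := hj i hi
      rw [← h0] at this
      rw [abs_nonpos_iff.1 this, mul_zero]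
    have a1 := hf1 (T x) (Metric.mem_ball_self hd)
    rw [this] at a1 hy1
    linarith
  have ha : -M⁻¹ • f ∈ A m := by
    refine ⟨fun i => if i < m then -M⁻¹ * f (e i) else 0, fun i _ => ?_, ?_⟩
    · by_cases hi : i < m
      · simp only [if_pos hi]
        refine abs_le.1 ?_
        rw [abs_mul, abs_neg, abs_of_pos (inv_pos.2 hM0), inv_mul_le_iff₀ hM0, mul_one]
        exact hj i (Finset.mem_range.2 hi)
      · simp [hi]
    · ext w
      rw [L, _root_.sum_apply, _root_.smul_apply, rep hz w, smul_eq_mul, Finset.mul_sum]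
      refine Finset.sum_congr rfl fun i hi => ?_
      rw [if_pos (Finset.mem_range.1 hi), _root_.smul_apply, ev_apply, smul_eq_mul]
      ring
  have h1 := H m _ ha j (by
    rw [_root_.smul_apply, smul_eq_mul, abs_mul, abs_neg, abs_of_pos (inv_pos.2 hM0), ← hM,
      inv_mul_cancel₀ hM0.ne']) y hy
  refine absurd h1 (not_lt.2 (P_le fun z hz' => ?_))
  have := hf2 _ ⟨z, hz', rfl⟩
  simp only [ContinuousLinearMap.comp_apply, _root_.smul_apply, smul_eq_mul, hy1]
  nlinarith [inv_pos.2 hM0]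

noncomputable def inf (q : Seminorm ℝ X) (η : ℝ) (y : X) : ℝ := ⨅ u : X, max (q (y - η • u)) ‖u‖

lemma inf_le (q : Seminorm ℝ X) (η : ℝ) (y u : X) : inf q η y ≤ max (q (y - η • u)) ‖u‖ :=
  ciInf_le (f := fun u : X => max (q (y - η • u)) ‖u‖)
    ⟨0, by rintro _ ⟨u, rfl⟩; exact le_max_of_le_right (norm_nonneg u)⟩ u

lemma le_inf {q : Seminorm ℝ X} {η c : ℝ} {y : X} (h : ∀ u, c ≤ max (q (y - η • u)) ‖u‖) :
    c ≤ inf q η y := le_ciInf h

noncomputable def infS (q : Seminorm ℝ X) (η : ℝ) : Seminorm ℝ X :=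
  Seminorm.ofSMulLE (inf q η)
    (le_antisymm (by simpa using inf_le q η 0 0)
      (le_inf fun u => le_max_of_le_right (norm_nonneg u)))
    (fun x y => by
      have : ∀ u v, inf q η (x + y) ≤ max (q (x - η • u)) ‖u‖ + max (q (y - η • v)) ‖v‖ :=
        fun u v => (inf_le q η (x + y) (u + v)).trans (max_le (by
          have e1 : x + y - η • (u + v) = (x - η • u) + (y - η • v) := by
            rw [smul_add]; abel
          rw [e1]
          exact (map_add_le_add q _ _).trans (add_le_add (le_max_left _ _) (le_max_left _ _)))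
          ((norm_add_le _ _).trans (add_le_add (le_max_right _ _) (le_max_right _ _))))
      have h2 : ∀ u, inf q η (x + y) - max (q (x - η • u)) ‖u‖ ≤ inf q η y :=
        fun u => le_inf fun v => by linarith [this u v]
      have h3 : inf q η (x + y) - inf q η y ≤ inf q η x := le_inf fun u => by linarith [h2 u]
      linarith)
    (fun c x => by
      have h1 : ‖c‖ * inf q η x = ⨅ u : X, ‖c‖ * max (q (x - η • u)) ‖u‖ :=
        Real.mul_iInf_of_nonneg (norm_nonneg c) _
      rw [h1]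
      refine le_ciInf fun u => (inf_le q η (c • x) (c • u)).trans (le_of_eq ?_)
      rw [smul_comm η c u, ← smul_sub, map_smul_eq_mul, norm_smul,
        mul_max_of_nonneg _ _ (norm_nonneg c)])

lemma infS_apply (q : Seminorm ℝ X) (η : ℝ) (y : X) : infS q η y = inf q η y := rfl

lemma infS_le (q : Seminorm ℝ X) (η : ℝ) (y : X) : infS q η y ≤ q y := by
  simpa [infS_apply] using inf_le q η y 0

lemma le_infS (q : Seminorm ℝ X) {η b : ℝ} (hη : 0 < η) (hb : 0 < b) (h : ∀ x, q x ≤ b * ‖x‖)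
    (y : X) : q y ≤ (1 + η * b) * infS q η y := by
  rw [← div_le_iff₀' (by positivity)]
  refine le_inf fun u => ?_
  rw [div_le_iff₀' (by positivity)]
  have h1 := map_add_le_add q (y - η • u) (η • u)
  rw [sub_add_cancel, map_smul_eq_mul, Real.norm_eq_abs, abs_of_pos hη] at h1
  have h2 := le_max_left (q (y - η • u)) ‖u‖
  have h3 := mul_le_mul_of_nonneg_left (le_max_right (q (y - η • u)) ‖u‖) (mul_pos hη hb).le
  have h4 := mul_le_mul_of_nonneg_left (h u) hη.le
  nlinarith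

lemma aus_of (hp : ∀ y, ‖y‖ ≤ 2 * p y)
    (h : ∀ n : ℕ, ∃ (q : Seminorm ℝ X) (η ε : ℝ), 0 < η ∧ η ≤ 1 ∧ 0 < ε ∧ ε ≤ η / (n + 1) ∧
      ∀ x, |p x - infS q η x| ≤ ε * ‖x‖) : AUS p := by
  intro σ hσ
  obtain ⟨n, hn⟩ := exists_nat_one_div_lt (show 0 < σ / 6 by positivity)
  obtain ⟨q, η, ε, hη, hη1, hε, hεη, H⟩ := h n
  have hεσ : 6 * ε ≤ σ * η := by
    have : η / (n + 1) ≤ η * (σ / 6) := by
      rw [div_eq_mul_one_div]
      exact mul_le_mul_of_nonneg_left hn.le hη.le
    linarith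
  refine ⟨η, hη, hη1, fun y hy => ?_⟩
  have hy2 : ‖y‖ ≤ 2 := by linarith [hp y]
  have h1 : inf q η y < 1 + 3 * ε := by
    have := (abs_le.1 (H y)).1
    rw [infS_apply] at this
    nlinarith
  obtain ⟨u, hu⟩ := exists_lt_of_ciInf_lt h1
  rw [max_lt_iff] at hu
  obtain ⟨N, hN⟩ := tail u (show 0 < 3 * ε by positivity)
  refine ⟨N, fun v hv hv1 => ?_⟩
  have h2 : ‖u + v‖ ≤ 1 + 3 * ε := norm_le (by positivity) fun k => by
    rw [add_ap]
    by_cases hk : k < N
    · rw [hv k hk, add_zero]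
      linarith [ev_le u k]
    · have := abs_add_le (u k) (v k)
      linarith [hN k (not_lt.1 hk), ev_le v k]
  have h3 : inf q η (y + η • v) ≤ 1 + 3 * ε := by
    refine (inf_le q η _ (u + v)).trans (max_le ?_ h2)
    have e1 : y + η • v - η • (u + v) = y - η • u := by rw [smul_add]; abel
    rw [e1]
    exact hu.1.le
  have h4 := (abs_le.1 (H (y + η • v))).2
  rw [infS_apply] at h4
  have h5 : ‖y + η • v‖ ≤ 3 := by
    refine (norm_add_le _ _).trans ?_
    rw [norm_smul, Real.norm_eq_abs, abs_of_pos hη]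
    nlinarith [norm_nonneg v]
  nlinarith

end Pool.Agent.H.MP_19858b_an
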