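import Pool.Agent.H.MP_19858b_an.D

set_option autoImplicit false

namespace Pool.Agent.H.MP_19858b_an

open Set Filter Topology

def Eqv (p : Seminorm ℝ X) : Prop :=
  ∃ a b : ℝ, 0 < a ∧ 0 < b ∧ ∀ x : X, a * ‖x‖ ≤ p x ∧ p x ≤ b * ‖x‖

def Near (p r : Seminorm ℝ X) (ε : ℝ) : Prop := ∀ x, |p x - r x| ≤ ε * ‖x‖

lemma sup_le {q r : Seminorm ℝ X} {δ : ℝ} (hδ : 0 ≤ δ) (h : Near q r δ) :
    (⨆ x : Metric.closedBall (0 : X) 1, |q (x : X) - r (x : X)|) ≤ δ := by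
  haveI : Nonempty (Metric.closedBall (0 : X) 1) := ⟨⟨0, by simp⟩⟩
  refine ciSup_le fun x => (h x).trans ?_
  have := mem_closedBall_zero_iff.1 x.2
  nlinarith

lemma near_of {q r : Seminorm ℝ X} {δ : ℝ} (hq : Eqv q) (hr : Eqv r)
    (h : (⨆ x : Metric.closedBall (0 : X) 1, |q (x : X) - r (x : X)|) < δ) : Near q r δ := by
  obtain ⟨a, b, -, hb, hq⟩ := hq
  obtain ⟨a', b', -, hb', hr⟩ := hr
  have hbd : BddAbove (range fun x : Metric.closedBall (0 : X) 1 => |q (x : X) - r (x : X)|) := by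
    refine ⟨b + b', ?_⟩
    rintro _ ⟨x, rfl⟩
    have h1 := mem_closedBall_zero_iff.1 x.2
    have h2 := (hq x).2
    have h3 := (hr x).2
    have h4 := apply_nonneg q (x : X)
    have h5 := apply_nonneg r (x : X)
    show |_| ≤ _
    rw [abs_le]
    constructor <;> nlinarith
  intro x
  by_cases hx : x = 0
  · simp [hx]
  have hx' := norm_pos_iff.2 hx
  have h1 := (le_ciSup hbd ⟨‖x‖⁻¹ • x, mem_closedBall_zero_iff.2 (by
    rw [norm_smul, norm_inv, norm_norm, inv_mul_cancel₀ hx'.ne'])⟩).trans h.le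
  simp only [map_smul_eq_mul, norm_inv, norm_norm] at h1
  rw [← mul_sub, abs_mul, abs_of_pos (inv_pos.2 hx'), inv_mul_le_iff₀ hx', mul_comm] at h1
  exact h1

lemma Near.trans {p q r : Seminorm ℝ X} {a b : ℝ} (h1 : Near p q a) (h2 : Near q r b) :
    Near p r (a + b) := fun x => by
  have := abs_sub_le (p x) (q x) (r x)
  linarith [h1 x, h2 x]

lemma Near.mono {p q : Seminorm ℝ X} {a b : ℝ} (h1 : Near p q a) (h : a ≤ b) : Near p q b :=
  fun x => (h1 x).trans (mul_le_mul_of_nonneg_right h (norm_nonneg x))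

def ND (F : Set (Seminorm ℝ X)) : Prop :=
  ∀ p : Seminorm ℝ X, Eqv p → ∀ ε : ℝ, 0 < ε → ∃ q : Seminorm ℝ X, Eqv q ∧ ∃ δ : ℝ, 0 < δ ∧
    ∀ r : Seminorm ℝ X, Eqv r →
      (⨆ x : Metric.closedBall (0 : X) 1, |q (x : X) - r (x : X)|) < δ →
      ((⨆ x : Metric.closedBall (0 : X) 1, |p (x : X) - r (x : X)|) < ε ∧ r ∉ F)

lemma gstep {F : Set (Seminorm ℝ X)} (hF : ND F) (n : ℕ) {r : Seminorm ℝ X} {ε : ℝ} (hr : Eqv r)
    (hε : 0 < ε) : ∃ (r' : Seminorm ℝ X) (ε' : ℝ), (Eqv r' ∧ 0 < ε') ∧ ε' ≤ ε / 2 ∧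
      (∃ (q : Seminorm ℝ X) (η : ℝ), r' = infS q η ∧ 0 < η ∧ η ≤ 1 ∧ ε' ≤ η / (n + 1)) ∧
      ∀ s, Eqv s → Near r' s ε' → Near r s ε ∧ s ∉ F := by
  obtain ⟨q, hq, δ, hδ, H⟩ := hF r hr ε hε
  obtain ⟨a, b, ha, hb, hq'⟩ := id hq
  set η := min 1 (δ / (4 * b ^ 2)) with hηd
  have hη : 0 < η := lt_min one_pos (by positivity)
  have hη2 : η * b ^ 2 ≤ δ / 4 := by
    calc _ ≤ δ / (4 * b ^ 2) * b ^ 2 := mul_le_mul_of_nonneg_right (min_le_right _ _) (sq_nonneg b)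
      _ = δ / 4 := by field_simp
  have h1 := le_infS q hη hb fun x => (hq' x).2
  have h2 := infS_le q η
  have hn : Near q (infS q η) (δ / 4) := fun x => by
    rw [abs_of_nonneg (sub_nonneg.2 (h2 x))]
    have a1 := mul_le_mul_of_nonneg_left ((h2 x).trans (hq' x).2) (mul_pos hη hb).le
    have a2 := mul_le_mul_of_nonneg_right hη2 (norm_nonneg x)
    nlinarith [h1 x]
  refine ⟨infS q η, min (δ / 4) (min (ε / 2) (η / (n + 1))), ⟨⟨a / (1 + η * b), b, by positivity,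
    hb, fun x => ⟨?_, (h2 x).trans (hq' x).2⟩⟩, by positivity⟩,
    (min_le_right _ _).trans (min_le_left _ _),
    ⟨q, η, rfl, hη, min_le_left _ _, (min_le_right _ _).trans (min_le_right _ _)⟩,
    fun s hs hns => ?_⟩
  · rw [div_mul_eq_mul_div, div_le_iff₀' (by positivity)]
    exact (hq' x).1.trans (h1 x)
  · have a1 := hn.trans (hns.mono (min_le_left _ _))
    obtain ⟨a2, a3⟩ := H s hs (lt_of_le_of_lt (sup_le (by positivity) a1) (by linarith))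
    exact ⟨near_of hr hs a2, a3⟩

theorem game (F : ℕ → Set (Seminorm ℝ X)) (hF : ∀ n, ND (F n)) :
    ∃ p : Seminorm ℝ X, Eqv p ∧ (∀ y, ‖y‖ ≤ 2 * p y) ∧ AUS p ∧ ∀ n, p ∉ F n := by
  choose r' ε' h1 h2 h3 h4 using
    fun (n : ℕ) (s : {s : Seminorm ℝ X × ℝ // Eqv s.1 ∧ 0 < s.2}) => gstep (hF n) n s.2.1 s.2.2
  let s : ℕ → {s : Seminorm ℝ X × ℝ // Eqv s.1 ∧ 0 < s.2} := fun n =>
    Nat.rec ⟨(normSeminorm ℝ X, 1 / 2), ⟨1, 1, one_pos, one_pos, fun x => by simp⟩, by norm_num⟩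
      (fun n t => ⟨(r' n t, ε' n t), h1 n t⟩) n
  obtain ⟨r, ε, hr0, hε0, hr, hε, g2, g3, g4⟩ : ∃ (r : ℕ → Seminorm ℝ X) (ε : ℕ → ℝ),
      r 0 = normSeminorm ℝ X ∧ ε 0 = 1 / 2 ∧ (∀ n, Eqv (r n)) ∧ (∀ n, 0 < ε n) ∧
      (∀ n, ε (n + 1) ≤ ε n / 2) ∧
      (∀ n, ∃ (q : Seminorm ℝ X) (η : ℝ), r (n + 1) = infS q η ∧ 0 < η ∧ η ≤ 1 ∧
        ε (n + 1) ≤ η / (n + 1)) ∧
      ∀ n s, Eqv s → Near (r (n + 1)) s (ε (n + 1)) → Near (r n) s (ε n) ∧ s ∉ F n :=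
    ⟨fun n => (s n).1.1, fun n => (s n).1.2, rfl, rfl, fun n => (s n).2.1, fun n => (s n).2.2,
      fun n => h2 n (s n), fun n => h3 n (s n), fun n => h4 n (s n)⟩
  clear h1 h2 h3 h4 s r' ε'
  have a1 : ∀ n k, n ≤ k → ∀ s, Eqv s → Near (r k) s (ε k) → Near (r n) s (ε n) := by
    intro n k hk
    induction k, hk using Nat.le_induction with
    | base => exact fun s _ h => h
    | succ k _ ih => exact fun s hs h => ih s hs (g4 k s hs h).1
  have a2 : ∀ n k, n ≤ k → Near (r n) (r k) (ε n) := fun n k hk =>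
    a1 n k hk _ (hr k) fun x => by
      rw [sub_self, abs_zero]
      exact mul_nonneg (hε k).le (norm_nonneg x)
  have a3 : Tendsto ε atTop (𝓝 0) := by
    refine squeeze_zero (fun n => (hε n).le) (g := fun n => (1 / 2 : ℝ) ^ n) (fun n => ?_)
      (tendsto_pow_atTop_nhds_zero_of_lt_one (by norm_num) (by norm_num))
    induction n with
    | zero => rw [hε0]; norm_num
    | succ n ih => rw [pow_succ]; linarith [g2 n]
  have a4 : ∀ x, ∃ l, Tendsto (fun n => r n x) atTop (𝓝 l) := fun x => by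
    refine cauchySeq_tendsto_of_complete (cauchySeq_of_le_tendsto_0' (fun n => ε n * ‖x‖)
      (fun n k hk => ?_) (by simpa using a3.mul_const ‖x‖))
    rw [Real.dist_eq]
    exact a2 n k hk x
  choose l hl using a4
  let p : Seminorm ℝ X := Seminorm.of l
    (fun x y => le_of_tendsto_of_tendsto' (hl _) ((hl x).add (hl y)) fun n =>
      map_add_le_add (r n) x y)
    (fun c x => tendsto_nhds_unique (hl _) (by
      simpa only [map_smul_eq_mul] using (hl x).const_mul ‖c‖))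
  have a5 : ∀ n, Near (r n) p (ε n) := fun n x =>
    le_of_tendsto ((tendsto_const_nhds (x := r n x)).sub (hl x)).abs (by
      filter_upwards [eventually_ge_atTop n] with k hk using a2 n k hk x)
  have a6 : ∀ x, 1 / 2 * ‖x‖ ≤ p x ∧ p x ≤ 3 / 2 * ‖x‖ := fun x => by
    have := abs_le.1 (a5 0 x)
    rw [hr0, hε0, coe_normSeminorm] at this
    constructor <;> linarith [this.1, this.2]
  have a7 : Eqv p := ⟨1 / 2, 3 / 2, by norm_num, by norm_num, a6⟩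
  have a8 : ∀ y, ‖y‖ ≤ 2 * p y := fun y => by linarith [(a6 y).1]
  refine ⟨p, a7, a8, aus_of a8 fun n => ?_, fun n => (g4 n p a7 (a5 _)).2⟩
  obtain ⟨q, η, e1, e2, e3, e4⟩ := g3 n
  refine ⟨q, η, ε (n + 1), e2, e3, hε _, e4, fun x => ?_⟩
  rw [← e1, abs_sub_comm]
  exact a5 _ x

instance : Nontrivial X := ⟨⟨e 0, e 1, fun h => by
  have := congrArg (fun x : X => x 0) h
  simp [e_apply] at this⟩⟩

end Pool.Agent.H.MP_19858b_an
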